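import Mathlib
import Pool.Agent.Lib.MP_e14847_pr.Cover
import Pool.Agent.Lib.MP_e14847_pr.SumBox
import Pool.Agent.Lib.MP_e14847_pr.Exist
import Pool.Agent.Lib.MP_e14847_pr.Trans
import Pool.Agent.Lib.MP_e14847_pr.Shift

/-!
# A transient reversible chain on `ℤ²` which crosses every edge

There is a reversible, transient, nearest neighbour Markov chain on `ℤ²` whose transition
probability over every edge is at least `1/8`, and which crosses all edges of `ℤ²` with positive
probability, from every starting point.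

The chain is the walk in a network of square rings.  The conductance of an edge depends only on
its sup-norm level.  It is very large near a sparse sequence of rings, so that the walk started on
such a ring equidistributes over the ring before it reaches a neighbouring one; hence the index of
the last visited ring is almost a birth-death chain, the number of its down steps is controlled by
a negative binomial (Ray-Knight) recursion and harmonic numbers, and every edge near a ring is
crossed with a good chance between two visits to neighbouring rings.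
-/

open MeasureTheory

namespace Pool.Agent.Results.MP_e14847_pr.TransientCrossing

/-- `{x, y}` is an edge of the nearest-neighbour graph of `ℤ²`. -/
def Adj (x y : ℤ × ℤ) : Prop := |x.1 - y.1| + |x.2 - y.2| = 1

/-- `P` is a transition matrix on `ℤ²`. -/
def IsTransition (P : ℤ × ℤ → ℤ × ℤ → ℝ) : Prop :=
  (∀ x y, 0 ≤ P x y) ∧ ∀ x, HasSum (fun y => P x y) 1

/-- `X` is a Markov chain with transition matrix `P` started at `x0`, on the probability space
`(Ω, μ)`. -/
structure IsMarkovChain (P : ℤ × ℤ → ℤ × ℤ → ℝ) (x0 : ℤ × ℤ) {Ω : Type} [MeasurableSpace Ω]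
    (μ : Measure Ω) (X : ℕ → Ω → ℤ × ℤ) : Prop where
  prob : IsProbabilityMeasure μ
  meas : ∀ n, Measurable (X n)
  start : ∀ᵐ ω ∂μ, X 0 ω = x0
  markov : ∀ (n : ℕ) (h : ℕ → ℤ × ℤ) (y : ℤ × ℤ),
    μ {ω | (∀ i ≤ n, X i ω = h i) ∧ X (n + 1) ω = y} =
      μ {ω | ∀ i ≤ n, X i ω = h i} * ENNReal.ofReal (P (h n) y)

/-- The chain is nearest neighbour. -/
def NearestNeighbour (P : ℤ × ℤ → ℤ × ℤ → ℝ) : Prop := ∀ x y, 0 < P x y → Adj x y

/-- The transition probabilities are bounded from below by `c` on all edges. -/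
def BoundedBelow (c : ℝ) (P : ℤ × ℤ → ℤ × ℤ → ℝ) : Prop := ∀ x y, Adj x y → c ≤ P x y

/-- The chain is reversible. -/
def Reversible (P : ℤ × ℤ → ℤ × ℤ → ℝ) : Prop :=
  ∃ π : ℤ × ℤ → ℝ, (∀ x, 0 < π x) ∧ ∀ x y, π x * P x y = π y * P y x

/-- From every starting point, every state is visited only finitely often almost surely. -/
def Transient (P : ℤ × ℤ → ℤ × ℤ → ℝ) : Prop :=
  ∀ (x0 : ℤ × ℤ) (Ω : Type) (_ : MeasurableSpace Ω) (μ : Measure Ω) (X : ℕ → Ω → ℤ × ℤ),
    IsMarkovChain P x0 μ X → ∀ x, ∀ᵐ ω ∂μ, {n | X n ω = x}.Finite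

/-- The trajectory crosses every edge of `ℤ²`. -/
def CrossesAllEdges (t : ℕ → ℤ × ℤ) : Prop :=
  ∀ x y, Adj x y → ∃ n, (t n = x ∧ t (n + 1) = y) ∨ (t n = y ∧ t (n + 1) = x)

/-- There is a transition matrix on `ℤ²` which is nearest neighbour, at least `1/8` on every edge,
reversible and transient, such that the chain with this matrix exists from every starting point
and, from every starting point, crosses all edges with positive probability. -/
theorem result : ∃ P : ℤ × ℤ → ℤ × ℤ → ℝ,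
    IsTransition P ∧ NearestNeighbour P ∧ BoundedBelow (1 / 8) P ∧ Reversible P ∧ Transient P ∧
    (∀ x0, ∃ (Ω : Type) (_ : MeasurableSpace Ω) (μ : Measure Ω) (X : ℕ → Ω → ℤ × ℤ),
      IsMarkovChain P x0 μ X) ∧
    (∀ (x0 : ℤ × ℤ) (Ω : Type) (_ : MeasurableSpace Ω) (μ : Measure Ω) (X : ℕ → Ω → ℤ × ℤ),
      IsMarkovChain P x0 μ X → 0 < μ {ω | CrossesAllEdges (fun n => X n ω)}) := by
  have hadj : ∀ x y : ℤ × ℤ, Adj x y ↔ y - x ∈ Lib.MP_e14847_pr.dirs := by
    rintro ⟨a, b⟩ ⟨c, d⟩
    rw [Lib.MP_e14847_pr.mem_dirs]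
    simp only [Adj, Prod.mk_sub_mk, Prod.mk.injEq, abs_eq_max_neg]
    omega
  have hw := Lib.MP_e14847_pr.ww_pos
  have hw1 := Lib.MP_e14847_pr.ww_le1
  have hw2 := Lib.MP_e14847_pr.ww_le2
  set w := Lib.MP_e14847_pr.ww with hwdef
  set P := Lib.MP_e14847_pr.Pk w with hP
  have hchain : ∀ (x0 : ℤ × ℤ) (Ω : Type) (_ : MeasurableSpace Ω) (μ : Measure Ω)
      (X : ℕ → Ω → ℤ × ℤ), IsMarkovChain P x0 μ X → Lib.MP_e14847_pr.IsChain P x0 μ X :=
    fun x0 Ω _ μ X h => ⟨h.prob, h.meas, h.start, h.markov⟩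
  have hnn : ∀ x y, 0 ≤ P x y := Lib.MP_e14847_pr.Pk_nonneg hw
  have hval : ∀ x, ∀ e ∈ Lib.MP_e14847_pr.dirs,
      P x (x + e) = Lib.MP_e14847_pr.cd w x (x + e) / Lib.MP_e14847_pr.piw w x := by
    intro x e he
    rw [hP]
    unfold Lib.MP_e14847_pr.Pk
    rw [add_sub_cancel_left, if_pos he]
  have hzero : ∀ x y, y - x ∉ Lib.MP_e14847_pr.dirs → P x y = 0 := by
    intro x y h
    rw [hP]
    unfold Lib.MP_e14847_pr.Pk
    rw [if_neg h]
  have hsum : ∀ x, HasSum (fun y => P x y) 1 := by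
    intro x
    have h1 : HasSum (fun y => P x y)
        (∑ y ∈ Lib.MP_e14847_pr.dirs.image (fun e => x + e), P x y) := by
      refine hasSum_sum_of_ne_finset_zero (fun y hy => hzero x y (fun h => hy ?_))
      exact Finset.mem_image.2 ⟨y - x, h, by ring⟩
    rw [Finset.sum_image (fun a _ b _ hab => add_left_cancel hab),
      Finset.sum_congr rfl (hval x), ← Finset.sum_div] at h1
    have h2 := Lib.MP_e14847_pr.piw_pos hw x
    have h3 : (∑ e ∈ Lib.MP_e14847_pr.dirs, Lib.MP_e14847_pr.cd w x (x + e)) /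
        Lib.MP_e14847_pr.piw w x = 1 := div_self h2.ne'
    rwa [h3] at h1
  have hlow : ∀ x, ∀ e ∈ Lib.MP_e14847_pr.dirs, 1 / 8 ≤ P x (x + e) := by
    intro x e he
    rw [hval x e he, le_div_iff₀ (Lib.MP_e14847_pr.piw_pos hw x)]
    have := Lib.MP_e14847_pr.piw_le8 hw hw1 hw2 x he
    linarith
  refine ⟨P, ⟨hnn, hsum⟩, ?_, ?_, ?_, ?_, ?_, ?_⟩
  · intro x y hxy
    rw [hadj]
    by_contra hcon
    rw [hzero x y hcon] at hxy
    exact lt_irrefl _ hxy
  · intro x y hxy
    rw [hadj] at hxy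
    have h := hlow x (y - x) hxy
    rwa [add_sub_cancel] at h
  · refine ⟨Lib.MP_e14847_pr.piw w, Lib.MP_e14847_pr.piw_pos hw, fun x y => ?_⟩
    have hx := Lib.MP_e14847_pr.piw_pos hw x
    have hy := Lib.MP_e14847_pr.piw_pos hw y
    by_cases c : y - x ∈ Lib.MP_e14847_pr.dirs
    · have c' : x - y ∈ Lib.MP_e14847_pr.dirs := by
        rw [← hadj] at c ⊢
        unfold Adj at c ⊢
        rw [abs_sub_comm, abs_sub_comm y.2]
        exact c
      have h1 := hval x (y - x) c
      have h2 := hval y (x - y) c'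
      rw [add_sub_cancel] at h1 h2
      rw [h1, h2, mul_div_cancel₀ _ hx.ne', mul_div_cancel₀ _ hy.ne',
        Lib.MP_e14847_pr.cd_comm]
    · have c' : x - y ∉ Lib.MP_e14847_pr.dirs := by
        intro h
        rw [← hadj] at h
        apply c
        rw [← hadj]
        unfold Adj at h ⊢
        rw [abs_sub_comm, abs_sub_comm x.2]
        exact h
      rw [hzero x y c, hzero y x c', mul_zero, mul_zero]
  · intro x0 Ω _ μ X hX p
    exact Lib.MP_e14847_pr.transient hw hw1 Lib.MP_e14847_pr.ww_sum_le (hchain x0 Ω _ μ X hX) p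
  · intro x0
    obtain ⟨Ω, m, μ, X, hX⟩ := Lib.MP_e14847_pr.exists_chain hnn hsum x0
    exact ⟨Ω, m, μ, X, ⟨hX.prob, hX.meas, hX.start, hX.markov⟩⟩
  · intro x0 Ω m μ X hX
    have h := Lib.MP_e14847_pr.cross_all_starts (P := P)
      (fun x e he => lt_of_lt_of_le (by norm_num) (hlow x e he))
      (fun Ω _ μ X hX => by
        have hl : Lib.MP_e14847_pr.lev 0 < Lib.MP_e14847_pr.Rl 2 := by
          have h1 : Lib.MP_e14847_pr.Rl 2 = Lib.MP_e14847_pr.rr 1 := rfl
          have h2 := Lib.MP_e14847_pr.rr_ge 1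
          have h3 : Lib.MP_e14847_pr.lev 0 = 0 := by simp [Lib.MP_e14847_pr.lev]
          omega
        have hc := Lib.MP_e14847_pr.cover hX hl Lib.MP_e14847_pr.sum_box_le
        refine lt_of_lt_of_le (ENNReal.ofReal_pos.2 (by norm_num)) (hc.trans ?_)
        exact measure_mono (fun ω hω => hω)) x0 Ω m μ X (hchain x0 Ω m μ X hX)
    refine lt_of_lt_of_le h (measure_mono (fun ω hω => ?_))
    intro x y hxy
    rw [hadj] at hxy
    have h4 := hω x (y - x) hxy
    rw [add_sub_cancel] at h4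
    exact h4

end Pool.Agent.Results.MP_e14847_pr.TransientCrossing
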